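import Mathlib
import Pool.Agent.W845.GL.Stm

set_option autoImplicit false
set_option linter.all false

namespace Pool.Agent.W540.GL

open Filter MeasureTheory Finset
open scoped Classical Topology
open Pool.Agent.W845.GL

noncomputable section

lemma sum_prod {i : ℕ} (g : Fin i → Bool → Bool → ℝ) :
    ∑ x : Fin i → Bool, ∑ y : Fin i → Bool, ∏ j, g j (x j) (y j) = ∏ j, ∑ r, ∑ s, g j r s := by
  rw [Finset.prod_univ_sum, Fintype.piFinset_univ]
  apply Finset.sum_congr rfl
  intro x _
  rw [Finset.prod_univ_sum, Fintype.piFinset_univ]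

def z (j : ℕ) : ℝ := 1 + aa j * bb j ^ 2

def m (j : ℕ) : ℝ := (aa j + bb j ^ 2) / z j

/-- one factor -/
def G {i : ℕ} (S : Finset (Fin i)) (j : Fin i) (r s : Bool) : ℝ :=
  ff j r s * (if j ∈ S then sg r * sg s else 1)

lemma key (hz : ∀ j, z j ≠ 0) {i : ℕ} (S : Finset (Fin i)) :
    (∑ x : Fin i → Bool, ∑ y : Fin i → Bool, KK i x y * ∏ j ∈ S, (sg (x j) * sg (y j))) /
      (4 : ℝ) ^ i = (∏ j : Fin i, z j) * ∏ j ∈ S, m j := by
  have h1 : ∀ x y : Fin i → Bool, KK i x y * ∏ j ∈ S, (sg (x j) * sg (y j)) =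
      ∏ j : Fin i, G S j (x j) (y j) := by
    intro x y
    have e : ∏ j : Fin i, G S j (x j) (y j) = (∏ j : Fin i, ff j (x j) (y j)) *
        ∏ j : Fin i, (if j ∈ S then sg (x j) * sg (y j) else 1) := Finset.prod_mul_distrib
    rw [e, Finset.prod_ite_mem, Finset.univ_inter]
    rfl
  have h2 : ∀ j : Fin i, ∑ r, ∑ s, G S j r s = 4 * (z j * (if j ∈ S then m j else 1)) := by
    intro j
    simp only [Fintype.sum_bool, G, ff, sg]
    by_cases hj : j ∈ S
    · simp only [if_pos hj, m]
      rw [mul_div_cancel₀ _ (hz j)]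
      simp
      ring
    · simp only [if_neg hj, z]
      simp
      ring
  rw [Finset.sum_congr rfl (fun x _ => Finset.sum_congr rfl (fun y _ => h1 x y)),
    sum_prod (G S), Finset.prod_congr rfl (fun j _ => h2 j), Finset.prod_mul_distrib,
    Finset.prod_mul_distrib, Finset.prod_ite_mem, Finset.univ_inter]
  simp only [Finset.prod_const, Finset.card_univ, Fintype.card_fin]
  have : (4 : ℝ) ^ i ≠ 0 := by positivity
  field_simp

/-- weights of the coordinates -/
def al (N j : ℕ) : ℝ := if j < N then aa j else 0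

lemma TT_eq {i N : ℕ} (x y : Fin i → Bool) :
    TT i N x y = ∑ j : Fin i, al N j * (sg (x j) * sg (y j)) := by
  unfold TT al
  apply Finset.sum_congr rfl
  intro j _
  split_ifs
  · ring
  · ring

lemma sum_fin {i N : ℕ} (h : N ≤ i) (c : ℕ → ℝ) :
    ∑ j : Fin i, (if (j : ℕ) < N then c j else 0) = ∑ j ∈ range N, c j := by
  rw [Fin.sum_univ_eq_sum_range (fun j => if j < N then c j else 0) i, ← Finset.sum_filter]
  apply Finset.sum_congr _ (fun _ _ => rfl)
  ext j
  simp only [Finset.mem_filter, Finset.mem_range]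
  omega

theorem mk : S_T0 → S_MK := by
  intro h0 i N hN
  obtain ⟨ha, hb, -, -, -, -, -, -, -, hsum⟩ := h0
  have hz1 : ∀ j, 1 ≤ z j := by
    intro j
    have h1 := (ha j).1
    unfold z
    nlinarith [mul_nonneg h1.le (sq_nonneg (bb j))]
  have hz0 : ∀ j, z j ≠ 0 := fun j => (lt_of_lt_of_le one_pos (hz1 j)).ne'
  have hzb : ∀ j, z j ≤ Real.exp (bb j) := by
    intro j
    have h1 := ha j
    have h2 := hb j
    have h3 := Real.add_one_le_exp (bb j)
    have h4 : aa j * bb j ^ 2 ≤ bb j := by
      have h5 : bb j ^ 2 ≤ bb j := by nlinarith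
      have h6 : aa j * bb j ^ 2 ≤ 1 * bb j ^ 2 :=
        mul_le_mul_of_nonneg_right h1.2 (sq_nonneg _)
      linarith
    unfold z
    linarith
  have hZ1 : 1 ≤ ∏ j : Fin i, z j := by
    calc (1 : ℝ) = ∏ j : Fin i, (1 : ℝ) := by simp
      _ ≤ _ := Finset.prod_le_prod (fun _ _ => zero_le_one) (fun j _ => hz1 j)
  have hZ2 : ∏ j : Fin i, z j ≤ 2 := by
    have h1 : ∏ j : Fin i, z j ≤ ∏ j : Fin i, Real.exp (bb j) := by
      apply Finset.prod_le_prod
      · intro j _
        exact (lt_of_lt_of_le one_pos (hz1 j)).le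
      · intro j _
        exact hzb j
    rw [← Real.exp_sum] at h1
    have h2 : ∑ j : Fin i, bb j ≤ 1 / 15 := by
      rw [Fin.sum_univ_eq_sum_range (fun j => bb j) i]
      exact hsum i
    have h3 : Real.exp (∑ j : Fin i, bb j) ≤ Real.exp (1 / 15) := Real.exp_le_exp.2 h2
    have h4 : Real.exp (1 / 15) ≤ 2 := by
      have h5 := Real.add_one_le_exp (-(1 / 15 : ℝ))
      have h6 : Real.exp (1 / 15) * Real.exp (-(1 / 15 : ℝ)) = 1 := by
        rw [← Real.exp_add]
        simp
      have h7 := Real.exp_pos (1 / 15 : ℝ)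
      nlinarith
    linarith
  have hm1 : ∀ j, aa j ≤ m j := by
    intro j
    have h1 := ha j
    unfold m
    rw [le_div_iff₀ (lt_of_lt_of_le one_pos (hz1 j))]
    unfold z
    nlinarith [mul_nonneg (sub_nonneg.2 h1.2) (sq_nonneg (bb j)), sq_nonneg (bb j),
      mul_nonneg h1.1.le (mul_nonneg (sub_nonneg.2 h1.2) (sq_nonneg (bb j)))]
  have hm2 : ∀ j, m j ≤ aa j + bb j ^ 2 := by
    intro j
    have h1 := ha j
    unfold m
    apply div_le_self
    · positivity [h1.1]
    · exact hz1 j
  have hm3 : ∀ j, m j ≤ 1 := by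
    intro j
    have h1 := ha j
    have h2 := hb j
    unfold m
    rw [div_le_one (lt_of_lt_of_le one_pos (hz1 j))]
    unfold z
    have h3 : bb j ^ 2 ≤ 1 := by nlinarith
    nlinarith [mul_nonneg (sub_nonneg.2 h1.2) (sub_nonneg.2 h3)]
  have hm0 : ∀ j, 0 ≤ m j := fun j => (ha j).1.le.trans (hm1 j)
  have hal0 : ∀ j, 0 ≤ al N j := by
    intro j
    unfold al
    split_ifs
    · exact (ha j).1.le
    · exact le_refl 0
  have e0 := key hz0 (∅ : Finset (Fin i))
  simp only [Finset.prod_empty, mul_one] at e0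
  have e1 : ∀ j : Fin i, (∑ x : Fin i → Bool, ∑ y : Fin i → Bool, KK i x y * (sg (x j) * sg (y j))) /
      (4 : ℝ) ^ i = (∏ j : Fin i, z j) * m j := by
    intro j
    have := key hz0 ({j} : Finset (Fin i))
    simpa only [Finset.prod_singleton] using this
  have hsg : ∀ r : Bool, sg r * sg r = 1 := by
    intro r
    cases r <;> simp [sg]
  have e2 : ∀ j l : Fin i, (∑ x : Fin i → Bool, ∑ y : Fin i → Bool,
      KK i x y * ((sg (x j) * sg (y j)) * (sg (x l) * sg (y l)))) /
      (4 : ℝ) ^ i = (∏ j : Fin i, z j) * (m j * m l) +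
        (if j = l then (∏ j : Fin i, z j) * (1 - m j ^ 2) else 0) := by
    intro j l
    by_cases hjl : j = l
    · subst hjl
      rw [if_pos rfl]
      have h1 : ∀ x y : Fin i → Bool,
          KK i x y * ((sg (x j) * sg (y j)) * (sg (x j) * sg (y j))) = KK i x y := by
        intro x y
        have : (sg (x j) * sg (y j)) * (sg (x j) * sg (y j)) =
          (sg (x j) * sg (x j)) * (sg (y j) * sg (y j)) := by ring
        rw [this, hsg, hsg]
        ring
      simp_rw [h1]
      rw [e0]
      ring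
    · rw [if_neg hjl]
      have := key hz0 ({j, l} : Finset (Fin i))
      simp only [Finset.prod_pair hjl] at this
      rw [this, add_zero]
  refine ⟨by rw [e0]; exact hZ2, ?_, ?_⟩
  · have h1 : (∑ x : Fin i → Bool, ∑ y : Fin i → Bool, KK i x y * TT i N x y) / (4 : ℝ) ^ i =
        ∑ j : Fin i, al N j * ((∏ j : Fin i, z j) * m j) := by
      simp_rw [TT_eq, Finset.mul_sum]
      have h2 : ∑ x : Fin i → Bool, ∑ y : Fin i → Bool, ∑ j : Fin i,
          KK i x y * (al N j * (sg (x j) * sg (y j))) =
          ∑ j : Fin i, al N j * ∑ x : Fin i → Bool, ∑ y : Fin i → Bool,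
            KK i x y * (sg (x j) * sg (y j)) := by
        simp_rw [Finset.mul_sum]
        rw [Finset.sum_congr rfl (fun x _ => Finset.sum_comm), Finset.sum_comm]
        apply Finset.sum_congr rfl
        intro j _
        apply Finset.sum_congr rfl
        intro x _
        apply Finset.sum_congr rfl
        intro y _
        ring
      rw [h2, Finset.sum_div]
      apply Finset.sum_congr rfl
      intro j _
      rw [mul_div_assoc, e1]
    rw [h1]
    have h3 : VV N = ∑ j : Fin i, (if (j : ℕ) < N then aa j ^ 2 else 0) := by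
      rw [sum_fin hN (fun j => aa j ^ 2)]
      rfl
    rw [h3]
    apply Finset.sum_le_sum
    intro j _
    unfold al
    split_ifs
    · have h4 : aa j ≤ (∏ j : Fin i, z j) * m j := by
        calc aa j ≤ m j := hm1 j
          _ = 1 * m j := (one_mul _).symm
          _ ≤ _ := mul_le_mul_of_nonneg_right hZ1 (hm0 j)
      have := mul_le_mul_of_nonneg_left h4 (ha j).1.le
      nlinarith
    · simp
  · have h1 : (∑ x : Fin i → Bool, ∑ y : Fin i → Bool, KK i x y * TT i N x y ^ 2) / (4 : ℝ) ^ i =
        ∑ j : Fin i, ∑ l : Fin i, (al N j * al N l) * ((∏ j : Fin i, z j) * (m j * m l) +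
        (if j = l then (∏ j : Fin i, z j) * (1 - m j ^ 2) else 0)) := by
      have h2 : ∀ x y : Fin i → Bool, KK i x y * TT i N x y ^ 2 = ∑ j : Fin i, ∑ l : Fin i,
          (al N j * al N l) * (KK i x y * ((sg (x j) * sg (y j)) * (sg (x l) * sg (y l)))) := by
        intro x y
        rw [TT_eq, pow_two, Finset.sum_mul_sum, Finset.mul_sum]
        apply Finset.sum_congr rfl
        intro j _
        rw [Finset.mul_sum]
        apply Finset.sum_congr rfl
        intro l _
        ring
      simp_rw [h2]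
      have h3 : ∑ x : Fin i → Bool, ∑ y : Fin i → Bool, ∑ j : Fin i, ∑ l : Fin i,
          (al N j * al N l) * (KK i x y * ((sg (x j) * sg (y j)) * (sg (x l) * sg (y l)))) =
          ∑ j : Fin i, ∑ l : Fin i, (al N j * al N l) * ∑ x : Fin i → Bool, ∑ y : Fin i → Bool,
            (KK i x y * ((sg (x j) * sg (y j)) * (sg (x l) * sg (y l)))) := by
        simp_rw [Finset.mul_sum]
        rw [Finset.sum_congr rfl (fun x _ => Finset.sum_comm), Finset.sum_comm]
        apply Finset.sum_congr rfl
        intro j _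
        rw [Finset.sum_congr rfl (fun x _ => Finset.sum_comm), Finset.sum_comm]
      rw [h3, Finset.sum_div]
      apply Finset.sum_congr rfl
      intro j _
      rw [Finset.sum_div]
      apply Finset.sum_congr rfl
      intro l _
      rw [mul_div_assoc, e2]
    rw [h1]
    have h4 : ∑ j : Fin i, ∑ l : Fin i, (al N j * al N l) * ((∏ j : Fin i, z j) * (m j * m l) +
        (if j = l then (∏ j : Fin i, z j) * (1 - m j ^ 2) else 0)) =
        (∏ j : Fin i, z j) * ((∑ j : Fin i, al N j * m j) ^ 2 +
          ∑ j : Fin i, al N j ^ 2 * (1 - m j ^ 2)) := by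
      simp_rw [mul_add, Finset.sum_add_distrib]
      congr 1
      · rw [pow_two, Finset.sum_mul_sum, Finset.mul_sum]
        apply Finset.sum_congr rfl
        intro j _
        rw [Finset.mul_sum]
        apply Finset.sum_congr rfl
        intro l _
        ring
      · rw [Finset.mul_sum]
        apply Finset.sum_congr rfl
        intro j _
        simp only [mul_ite, mul_zero, Finset.sum_ite_eq, Finset.mem_univ, if_true]
        ring
    rw [h4]
    have h5 : VV N = ∑ j : Fin i, (if (j : ℕ) < N then aa j ^ 2 else 0) := by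
      rw [sum_fin hN (fun j => aa j ^ 2)]
      rfl
    have h6 : ∑ j : Fin i, al N j ^ 2 * (1 - m j ^ 2) ≤ VV N := by
      rw [h5]
      apply Finset.sum_le_sum
      intro j _
      unfold al
      split_ifs
      · have := hm0 j
        nlinarith [sq_nonneg (aa j), sq_nonneg (aa j * m j)]
      · simp
    have h7 : ∑ j : Fin i, al N j * m j ≤ VV N + 1 := by
      have h8 : ∑ j : Fin i, al N j * m j ≤
          ∑ j : Fin i, ((if (j : ℕ) < N then aa j ^ 2 else 0) + (if (j : ℕ) < N then bb j else 0)) := by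
        apply Finset.sum_le_sum
        intro j _
        unfold al
        split_ifs
        · have h9 := hm2 j
          have h10 := ha j
          have h11 := hb j
          have h12 : aa j * m j ≤ aa j * (aa j + bb j ^ 2) := mul_le_mul_of_nonneg_left h9 h10.1.le
          have h13 : bb j ^ 2 ≤ bb j := by nlinarith
          have h14 : aa j * bb j ^ 2 ≤ 1 * bb j ^ 2 :=
            mul_le_mul_of_nonneg_right h10.2 (sq_nonneg _)
          nlinarith
        · simp
      rw [Finset.sum_add_distrib, ← h5, sum_fin hN (fun j => bb j)] at h8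
      have := hsum N
      linarith
    have h8 : 0 ≤ ∑ j : Fin i, al N j * m j :=
      Finset.sum_nonneg (fun j _ => mul_nonneg (hal0 j) (hm0 j))
    have h9 : (∑ j : Fin i, al N j * m j) ^ 2 ≤ (VV N + 1) ^ 2 := pow_le_pow_left₀ h8 h7 2
    have h10 : 0 ≤ ∑ j : Fin i, al N j ^ 2 * (1 - m j ^ 2) := by
      apply Finset.sum_nonneg
      intro j _
      apply mul_nonneg (sq_nonneg _)
      have := hm0 j
      have := hm3 j
      nlinarith
    have h11 : 0 ≤ (∑ j : Fin i, al N j * m j) ^ 2 := sq_nonneg _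
    calc (∏ j : Fin i, z j) * ((∑ j : Fin i, al N j * m j) ^ 2 +
          ∑ j : Fin i, al N j ^ 2 * (1 - m j ^ 2)) ≤ 2 * ((∑ j : Fin i, al N j * m j) ^ 2 +
          ∑ j : Fin i, al N j ^ 2 * (1 - m j ^ 2)) :=
          mul_le_mul_of_nonneg_right hZ2 (by linarith)
      _ ≤ 2 * (VV N + (VV N + 1) ^ 2) := by linarith

end

end Pool.Agent.W540.GL
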